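import Mathlib

/-!
General lemma for te_modules (MP_7ecdd4_nt): the determinant of a matrix which is of small rank
modulo `q`.
-/

set_option autoImplicit false

namespace Pool.Agent.H26.TE

open Matrix

theorem te_det_aux {ι κ : Type} [Fintype ι] [Fintype κ] [DecidableEq ι] [DecidableEq κ] (q : ℤ)
    (T : Matrix ι κ ℤ) (L : Matrix κ ι ℤ) (E : Matrix ι ι ℤ) :
    q ^ Fintype.card κ * (T * L + q • E).det =
      q ^ Fintype.card ι * (fromBlocks E T (-L) (q • (1 : Matrix κ κ ℤ))).det := by
  have h1 : (T * L + q • E).det = (fromBlocks (q • E) T (-L) (1 : Matrix κ κ ℤ)).det := by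
    rw [det_fromBlocks_one₂₂]
    congr 1
    rw [Matrix.mul_neg, sub_neg_eq_add, add_comm]
  have h2 : fromBlocks (q • E) T (-L) (1 : Matrix κ κ ℤ) *
      fromBlocks (1 : Matrix ι ι ℤ) 0 0 (q • (1 : Matrix κ κ ℤ)) =
      fromBlocks (q • (1 : Matrix ι ι ℤ)) 0 0 (1 : Matrix κ κ ℤ) *
      fromBlocks E T (-L) (q • (1 : Matrix κ κ ℤ)) := by
    rw [fromBlocks_multiply, fromBlocks_multiply]
    simp only [Matrix.mul_smul, Matrix.smul_mul, Matrix.mul_one, Matrix.one_mul, Matrix.mul_zero,
      Matrix.zero_mul, smul_zero, add_zero, zero_add]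
  have h3 := congrArg Matrix.det h2
  rw [det_mul, det_mul, det_fromBlocks_zero₁₂, det_fromBlocks_zero₁₂, det_smul, det_smul] at h3
  simp only [det_one, mul_one, one_mul] at h3
  rw [h1, mul_comm]
  exact h3

/-- if `M = T L + q E` with inner dimension `card κ`, then `q ^ (card ι - card κ)` divides
`det M` -/
theorem te_det {ι κ : Type} [Fintype ι] [Fintype κ] [DecidableEq ι] [DecidableEq κ] (q : ℤ)
    (T : Matrix ι κ ℤ) (L : Matrix κ ι ℤ) (E : Matrix ι ι ℤ) :
    q ^ (Fintype.card ι - Fintype.card κ) ∣ (T * L + q • E).det := by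
  by_cases hq : q = 0
  · subst hq
    rcases Nat.lt_or_ge (Fintype.card κ) (Fintype.card ι) with h | h
    · have h0 : Fintype.card ι - Fintype.card κ ≠ 0 := by omega
      have e : (T * L + (0 : ℤ) • E).det = 0 := by
        rw [zero_smul, add_zero]
        by_contra hne
        have h1 := Matrix.rank_mul_le_right (T.map (Int.cast : ℤ → ℚ)) (L.map (Int.cast : ℤ → ℚ))
        have h2 : ((T * L).map (Int.cast : ℤ → ℚ)).det ≠ 0 := by
          have := Int.cast_det (R := ℚ) (T * L)
          rw [← this]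
          exact_mod_cast hne
        have h3 : (T * L).map (Int.cast : ℤ → ℚ) =
            T.map (Int.cast : ℤ → ℚ) * L.map (Int.cast : ℤ → ℚ) := by
          exact Matrix.map_mul (f := Int.castRingHom ℚ)
        rw [h3] at h2
        have h4 := Matrix.rank_of_isUnit _ ((Matrix.isUnit_iff_isUnit_det _).2
          (isUnit_iff_ne_zero.2 h2))
        rw [h4] at h1
        have h5 := Matrix.rank_le_card_height (L.map (Int.cast : ℤ → ℚ))
        omega
      rw [e]
      exact dvd_zero _
    · rw [Nat.sub_eq_zero_of_le h, pow_zero]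
      exact one_dvd _
  · rcases Nat.lt_or_ge (Fintype.card κ) (Fintype.card ι) with h | h
    · have h1 := te_det_aux q T L E
      refine ⟨(fromBlocks E T (-L) (q • (1 : Matrix κ κ ℤ))).det, ?_⟩
      have h2 : q ^ Fintype.card ι = q ^ Fintype.card κ * q ^ (Fintype.card ι - Fintype.card κ) := by
        rw [← pow_add]
        congr 1
        omega
      rw [h2, mul_assoc] at h1
      exact mul_left_cancel₀ (pow_ne_zero _ hq) h1
    · rw [Nat.sub_eq_zero_of_le h, pow_zero]
      exact one_dvd _

/-- congruence form -/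
theorem te_det_mod {ι κ : Type} [Fintype ι] [Fintype κ] [DecidableEq ι] [DecidableEq κ] (q : ℤ)
    (M : Matrix ι ι ℤ) (T : Matrix ι κ ℤ) (L : Matrix κ ι ℤ)
    (h : ∀ i j, q ∣ M i j - ∑ k, T i k * L k j) :
    q ^ (Fintype.card ι - Fintype.card κ) ∣ M.det := by
  choose E hE using h
  have e : M = T * L + q • (Matrix.of E) := by
    ext i j
    rw [Matrix.add_apply, Matrix.mul_apply, Matrix.smul_apply, Matrix.of_apply, smul_eq_mul,
      ← hE i j]
    ring
  rw [e]
  exact te_det q T L _

end Pool.Agent.H26.TE
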