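import Mathlib

/-!
General lemmas for te_modules (MP_7ecdd4_nt): the sum of the absolute values of the coefficients of
an integer polynomial in several variables.
-/

set_option autoImplicit false

namespace Pool.Agent.H26.TE

open MvPolynomial Finset

/-- sum of the absolute values of the coefficients -/
noncomputable def nm {σ : Type} (f : MvPolynomial σ ℤ) : ℝ :=
  ∑ m ∈ f.support, |((f.coeff m : ℤ) : ℝ)|

theorem nm_nonneg {σ : Type} (f : MvPolynomial σ ℤ) : 0 ≤ nm f :=
  Finset.sum_nonneg fun _ _ => abs_nonneg _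

/-- the norm may be computed on any finite set containing the support -/
theorem nm_eq {σ : Type} (f : MvPolynomial σ ℤ) (s : Finset (σ →₀ ℕ)) (hs : f.support ⊆ s) :
    nm f = ∑ m ∈ s, |((f.coeff m : ℤ) : ℝ)| := by
  unfold nm
  refine Finset.sum_subset hs fun m _ hm => ?_
  rw [MvPolynomial.notMem_support_iff.1 hm]
  simp

theorem nm_zero {σ : Type} : nm (0 : MvPolynomial σ ℤ) = 0 := by
  simp [nm]

theorem nm_monomial {σ : Type} (m : σ →₀ ℕ) (a : ℤ) : nm (monomial m a) = |(a : ℝ)| := by
  classical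
  rw [nm_eq _ {m} support_monomial_subset]
  simp

theorem nm_C {σ : Type} (a : ℤ) : nm (C a : MvPolynomial σ ℤ) = |(a : ℝ)| :=
  nm_monomial 0 a

theorem nm_one {σ : Type} : nm (1 : MvPolynomial σ ℤ) = 1 := by
  have := nm_C (σ := σ) 1
  simpa using this

theorem nm_X {σ : Type} (v : σ) : nm (X v : MvPolynomial σ ℤ) = 1 := by
  have := nm_monomial (Finsupp.single v 1) 1
  simpa [X] using this

theorem nm_neg {σ : Type} (f : MvPolynomial σ ℤ) : nm (-f) = nm f := by
  unfold nm
  rw [support_neg]
  simp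

theorem nm_add {σ : Type} (f g : MvPolynomial σ ℤ) : nm (f + g) ≤ nm f + nm g := by
  classical
  rw [nm_eq (f + g) (f.support ∪ g.support) support_add,
    nm_eq f (f.support ∪ g.support) subset_union_left,
    nm_eq g (f.support ∪ g.support) subset_union_right, ← Finset.sum_add_distrib]
  refine Finset.sum_le_sum fun m _ => ?_
  rw [coeff_add]
  push_cast
  exact abs_add_le _ _

theorem nm_sub {σ : Type} (f g : MvPolynomial σ ℤ) : nm (f - g) ≤ nm f + nm g := by
  rw [sub_eq_add_neg]
  refine (nm_add f (-g)).trans ?_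
  rw [nm_neg]

theorem nm_sum {σ ι : Type} (s : Finset ι) (f : ι → MvPolynomial σ ℤ) :
    nm (∑ i ∈ s, f i) ≤ ∑ i ∈ s, nm (f i) := by
  classical
  induction s using Finset.induction_on with
  | empty => simp [nm_zero]
  | insert a s ha ih =>
    rw [Finset.sum_insert ha, Finset.sum_insert ha]
    exact (nm_add _ _).trans (by linarith)

theorem nm_monomial_mul {σ : Type} (m : σ →₀ ℕ) (a : ℤ) (g : MvPolynomial σ ℤ) :
    nm (monomial m a * g) ≤ |(a : ℝ)| * nm g := by
  classical
  have h1 : (monomial m a * g) = ∑ k ∈ g.support, monomial (m + k) (a * g.coeff k) := by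
    conv_lhs => rw [g.as_sum, Finset.mul_sum]
    refine Finset.sum_congr rfl fun k _ => ?_
    rw [monomial_mul]
  rw [h1]
  refine (nm_sum _ _).trans (le_of_eq ?_)
  unfold nm
  rw [Finset.mul_sum]
  refine Finset.sum_congr rfl fun k _ => ?_
  have := nm_monomial (m + k) (a * g.coeff k)
  unfold nm at this
  rw [this]
  push_cast
  rw [abs_mul]

theorem nm_mul {σ : Type} (f g : MvPolynomial σ ℤ) : nm (f * g) ≤ nm f * nm g := by
  classical
  have h1 : f * g = ∑ m ∈ f.support, monomial m (f.coeff m) * g := by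
    conv_lhs => rw [f.as_sum, Finset.sum_mul]
  rw [h1]
  refine (nm_sum _ _).trans ?_
  have h2 : nm f * nm g = ∑ m ∈ f.support, |((f.coeff m : ℤ) : ℝ)| * nm g := by
    unfold nm
    rw [Finset.sum_mul]
  rw [h2]
  exact Finset.sum_le_sum fun m _ => nm_monomial_mul m _ g

theorem nm_pow {σ : Type} (f : MvPolynomial σ ℤ) (k : ℕ) : nm (f ^ k) ≤ nm f ^ k := by
  induction k with
  | zero => simp [nm_one]
  | succ k ih =>
    rw [pow_succ, pow_succ]
    exact (nm_mul _ _).trans (mul_le_mul_of_nonneg_right ih (nm_nonneg f))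

theorem nm_prod {σ ι : Type} (s : Finset ι) (f : ι → MvPolynomial σ ℤ) :
    nm (∏ i ∈ s, f i) ≤ ∏ i ∈ s, nm (f i) := by
  classical
  induction s using Finset.induction_on with
  | empty => simp [nm_one]
  | insert a s ha ih =>
    rw [Finset.prod_insert ha, Finset.prod_insert ha]
    exact (nm_mul _ _).trans (mul_le_mul_of_nonneg_left ih (nm_nonneg _))

/-- derivation -/
theorem nm_pderiv {σ : Type} (i : σ) (f : MvPolynomial σ ℤ) :
    nm (pderiv i f) ≤ f.totalDegree * nm f := by
  classical
  have h1 : pderiv i f = ∑ m ∈ f.support, monomial (m - Finsupp.single i 1) (f.coeff m * m i) := by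
    conv_lhs => rw [f.as_sum, map_sum]
    refine Finset.sum_congr rfl fun m _ => ?_
    rw [pderiv_monomial]
  rw [h1]
  refine (nm_sum _ _).trans ?_
  have h2 : (f.totalDegree : ℝ) * nm f = ∑ m ∈ f.support, f.totalDegree * |((f.coeff m : ℤ) : ℝ)| := by
    unfold nm
    rw [Finset.mul_sum]
  rw [h2]
  refine Finset.sum_le_sum fun m hm => ?_
  rw [nm_monomial]
  push_cast
  rw [abs_mul, mul_comm, abs_of_nonneg (Nat.cast_nonneg (m i) : (0 : ℝ) ≤ (m i : ℝ))]
  refine mul_le_mul_of_nonneg_right ?_ (abs_nonneg _)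
  have h3 : m i ≤ f.totalDegree := by
    refine le_trans ?_ (le_totalDegree hm)
    by_cases h0 : m i = 0
    · rw [h0]
      exact Nat.zero_le _
    · exact Finset.single_le_sum (f := fun j => m j) (fun j _ => Nat.zero_le _)
        (Finsupp.mem_support_iff.2 h0)
  exact_mod_cast h3

theorem deg_pderiv {σ : Type} (i : σ) (f : MvPolynomial σ ℤ) :
    (pderiv i f).totalDegree ≤ f.totalDegree := by
  classical
  have h1 : pderiv i f = ∑ m ∈ f.support, monomial (m - Finsupp.single i 1) (f.coeff m * m i) := by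
    conv_lhs => rw [f.as_sum, map_sum]
    refine Finset.sum_congr rfl fun m _ => ?_
    rw [pderiv_monomial]
  rw [h1]
  refine totalDegree_finsetSum_le fun m hm => ?_
  refine (totalDegree_monomial_le _ _).trans ?_
  refine le_trans ?_ (le_totalDegree hm)
  have h2 : (m - Finsupp.single i 1) ≤ m := tsub_le_self
  have h3 : (m - Finsupp.single i 1).degree ≤ m.degree := Finsupp.degree_mono h2
  exact h3

/-- evaluation -/
theorem nm_eval {σ : Type} (f : MvPolynomial σ ℤ) (x : σ → ℤ) (Y : ℝ) (hY : 1 ≤ Y)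
    (hx : ∀ v, |(x v : ℝ)| ≤ Y) : |((eval x f : ℤ) : ℝ)| ≤ nm f * Y ^ f.totalDegree := by
  classical
  rw [eval_eq]
  push_cast
  refine (Finset.abs_sum_le_sum_abs _ _).trans ?_
  unfold nm
  rw [Finset.sum_mul]
  refine Finset.sum_le_sum fun m hm => ?_
  rw [abs_mul, Finset.abs_prod]
  refine mul_le_mul_of_nonneg_left ?_ (abs_nonneg _)
  have h1 : ∏ i ∈ m.support, |((x i : ℤ) : ℝ) ^ m i| ≤ ∏ i ∈ m.support, Y ^ m i := by
    refine Finset.prod_le_prod (fun i _ => abs_nonneg _) fun i _ => ?_
    rw [abs_pow]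
    exact pow_le_pow_left₀ (abs_nonneg _) (hx i) _
  refine h1.trans ?_
  rw [Finset.prod_pow_eq_pow_sum]
  exact pow_le_pow_right₀ hY (le_totalDegree hm)

/-- a vector field -/
noncomputable def vf {σ : Type} [Fintype σ] (w : σ → MvPolynomial σ ℤ) (f : MvPolynomial σ ℤ) :
    MvPolynomial σ ℤ := ∑ v, w v * pderiv v f

theorem deg_vf {σ : Type} [Fintype σ] (w : σ → MvPolynomial σ ℤ) (f : MvPolynomial σ ℤ) (a : ℕ)
    (ha : ∀ v, (w v).totalDegree ≤ a) : (vf w f).totalDegree ≤ f.totalDegree + a := by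
  refine totalDegree_finsetSum_le fun v _ => ?_
  refine (totalDegree_mul _ _).trans ?_
  have := deg_pderiv v f
  have := ha v
  omega

theorem nm_vf {σ : Type} [Fintype σ] (w : σ → MvPolynomial σ ℤ) (f : MvPolynomial σ ℤ) (B : ℝ)
    (hB : ∀ v, nm (w v) ≤ B) :
    nm (vf w f) ≤ Fintype.card σ * B * f.totalDegree * nm f := by
  refine (nm_sum _ _).trans ?_
  have h1 : ∀ v ∈ (Finset.univ : Finset σ), nm (w v * pderiv v f) ≤
      B * (f.totalDegree * nm f) := by
    intro v _
    refine (nm_mul _ _).trans ?_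
    exact mul_le_mul (hB v) (nm_pderiv v f) (nm_nonneg _) ((nm_nonneg _).trans (hB v))
  refine (Finset.sum_le_sum h1).trans (le_of_eq ?_)
  rw [Finset.sum_const, Finset.card_univ, nsmul_eq_mul]
  ring

/-- a word of vector fields applied to a polynomial: degree and norm -/
theorem nm_word {σ : Type} [Fintype σ] (a : ℕ) (B : ℝ) (hB : 1 ≤ B)
    (l : List (σ → MvPolynomial σ ℤ)) (hl : ∀ w ∈ l, ∀ v, (w v).totalDegree ≤ a ∧ nm (w v) ≤ B)
    (f : MvPolynomial σ ℤ) :
    (l.foldr vf f).totalDegree ≤ f.totalDegree + a * l.length ∧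
    nm (l.foldr vf f) ≤ ((Fintype.card σ + 1) * B * (f.totalDegree + a * l.length + 1)) ^ l.length
      * nm f := by
  induction l with
  | nil => simp
  | cons w l ih =>
    obtain ⟨h1, h2⟩ := ih fun w' hw' => hl w' (List.mem_cons_of_mem _ hw')
    have hw := hl w (List.mem_cons_self)
    have h3 := deg_vf w (l.foldr vf f) a fun v => (hw v).1
    have h4 := nm_vf w (l.foldr vf f) B fun v => (hw v).2
    refine ⟨?_, ?_⟩
    · rw [List.foldr_cons, List.length_cons]
      have : a * (l.length + 1) = a * l.length + a := by ring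
      omega
    · rw [List.foldr_cons, List.length_cons]
      have hd : ((l.foldr vf f).totalDegree : ℝ) ≤ f.totalDegree + a * l.length := by
        exact_mod_cast h1
      have hB0 : (0 : ℝ) ≤ B := by linarith
      have hn := nm_nonneg f
      set K : ℝ := (Fintype.card σ + 1) * B * (f.totalDegree + a * l.length + 1) with hK
      set K' : ℝ := (Fintype.card σ + 1) * B * (f.totalDegree + a * ((l.length + 1 : ℕ) : ℝ) + 1)
        with hK'
      have hKK : K ≤ K' := by
        rw [hK, hK']
        refine mul_le_mul_of_nonneg_left ?_ (by positivity)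
        push_cast
        have : (0 : ℝ) ≤ a := Nat.cast_nonneg a
        linarith
      have hK0 : 0 ≤ K := by positivity
      have h5 : (Fintype.card σ : ℝ) * B * ((l.foldr vf f).totalDegree : ℝ) ≤ K' := by
        rw [hK']
        have e1 : (Fintype.card σ : ℝ) * B ≤ (Fintype.card σ + 1) * B :=
          mul_le_mul_of_nonneg_right (by linarith) hB0
        have e2 : ((l.foldr vf f).totalDegree : ℝ) ≤
            f.totalDegree + a * ((l.length + 1 : ℕ) : ℝ) + 1 := by
          push_cast
          have : (0 : ℝ) ≤ a := Nat.cast_nonneg a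
          linarith
        exact mul_le_mul e1 e2 (Nat.cast_nonneg _) (by positivity)
      calc nm (vf w (l.foldr vf f))
          ≤ (Fintype.card σ : ℝ) * B * ((l.foldr vf f).totalDegree : ℝ) * nm (l.foldr vf f) := h4
        _ ≤ K' * (K' ^ l.length * nm f) := by
          refine mul_le_mul h5 ?_ (nm_nonneg _) (hK0.trans hKK)
          exact h2.trans (mul_le_mul_of_nonneg_right (pow_le_pow_left₀ hK0 hKK _) hn)
        _ = K' ^ (l.length + 1) * nm f := by ring

end Pool.Agent.H26.TE
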