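import Mathlib

/-!
General lemma for te_modules (MP_7ecdd4_nt): a prime between `Y` and `Y ^ 2` which does not divide
a given integer.
-/

set_option autoImplicit false

namespace Pool.Agent.H26.TE

open Finset Chebyshev

/-- the product of the primes in `(Y, Y ^ 2]` is large -/
theorem te_theta : ∃ Y0 : ℝ, 2 ≤ Y0 ∧ ∀ Y : ℝ, Y0 ≤ Y → Y < θ (Y ^ 2) - θ Y := by
  have h1 : Filter.Tendsto (fun n : ℕ => (n : ℝ)) Filter.atTop Filter.atTop :=
    tendsto_natCast_atTop_atTop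
  -- use the lower bound for θ
  have hev : ∀ᶠ x : ℝ in Filter.atTop, Real.log (x + 1) + 2 * Real.sqrt x * Real.log x ≤ x / 8 := by
    have hl1 : (fun x : ℝ => Real.log (x + 1)) =o[Filter.atTop] fun x => x := by
      have h2 := Real.isLittleO_log_id_atTop.comp_tendsto
        (Filter.tendsto_atTop_add_const_right _ (1 : ℝ) Filter.tendsto_id)
      refine h2.trans_isBigO ?_
      refine Asymptotics.IsBigO.of_bound 2 ?_
      filter_upwards [Filter.eventually_ge_atTop (1 : ℝ)] with x hx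
      simp only [Function.comp, id, Real.norm_eq_abs]
      rw [abs_of_nonneg (by linarith), abs_of_nonneg (by linarith)]
      linarith
    have hl2 : (fun x : ℝ => 2 * Real.sqrt x * Real.log x) =o[Filter.atTop] fun x => x := by
      have h3 := isLittleO_log_rpow_atTop (show (0 : ℝ) < 1 / 2 by norm_num)
      have h4 : (fun x : ℝ => 2 * Real.sqrt x * Real.log x) =o[Filter.atTop]
          fun x => Real.sqrt x * x ^ (1 / 2 : ℝ) := by
        have h5 : (fun x : ℝ => 2 * Real.sqrt x) =O[Filter.atTop] fun x => Real.sqrt x :=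
          Asymptotics.IsBigO.of_bound 2 (Filter.Eventually.of_forall fun x => by
            rw [norm_mul]
            simp)
        exact h5.mul_isLittleO h3
      refine h4.congr' Filter.EventuallyEq.rfl ?_
      filter_upwards [Filter.eventually_ge_atTop (0 : ℝ)] with x hx
      rw [← Real.sqrt_eq_rpow, Real.mul_self_sqrt hx]
    have h6 := hl1.add hl2
    have h7 := h6.def (show (0 : ℝ) < 1 / 8 by norm_num)
    filter_upwards [h7, Filter.eventually_ge_atTop (1 : ℝ)] with x hx hx1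
    have h8 := (abs_le.1 (by simpa [Real.norm_eq_abs] using hx)).2
    rw [abs_of_nonneg (by linarith : (0 : ℝ) ≤ x)] at h8
    linarith
  obtain ⟨A, hA⟩ := Filter.eventually_atTop.1 hev
  refine ⟨max 16 (max A 2), le_max_of_le_right (le_max_right _ _), fun Y hY => ?_⟩
  have hY16 : 16 ≤ Y := (le_max_left _ _).trans hY
  have hYA : A ≤ Y := ((le_max_left _ _).trans (le_max_right _ _)).trans hY
  have hYY : Y ≤ Y ^ 2 := by nlinarith
  set n : ℕ := ⌊Y ^ 2⌋₊ with hn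
  have hn1 : (n : ℝ) ≤ Y ^ 2 := Nat.floor_le (by positivity)
  have hn2 : Y ^ 2 < n + 1 := Nat.lt_floor_add_one _
  have h2 : θ (Y ^ 2) = θ (n : ℝ) := by
    rw [theta_eq_theta_coe_floor (Y ^ 2), ← hn]
  have h3 := theta_ge n
  have hnA : A ≤ (n : ℝ) := by nlinarith
  have h4 := hA n hnA
  have h5 := theta_le_log4_mul_x (show (0 : ℝ) ≤ Y by linarith)
  have h6 : Real.log 4 ≤ 2 := by
    have : Real.log 4 = 2 * Real.log 2 := by
      rw [show (4 : ℝ) = 2 ^ 2 by norm_num, Real.log_pow]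
      norm_num
    rw [this]
    have := Real.log_two_lt_d9
    linarith
  have h7 := Real.log_two_gt_d9
  rw [h2]
  have h8 : Real.log 4 * Y ≤ 2 * Y := by nlinarith
  have h9 : (n : ℝ) / 2 ≤ (n : ℝ) * Real.log 2 := by
    have : (0 : ℝ) ≤ n := Nat.cast_nonneg n
    nlinarith
  nlinarith

/-- a prime in `(Y, Y ^ 2]` which does not divide `m` -/
theorem te_pri : ∃ Y0 : ℝ, 2 ≤ Y0 ∧ ∀ Y : ℝ, Y0 ≤ Y → ∀ m : ℤ, m ≠ 0 →
    Real.log |(m : ℝ)| ≤ Y → ∃ p : ℕ, p.Prime ∧ Y < p ∧ (p : ℝ) ≤ Y ^ 2 ∧ ¬ (p : ℤ) ∣ m := by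
  obtain ⟨Y0, hY0, h⟩ := te_theta
  refine ⟨Y0, hY0, fun Y hY m hm hlog => ?_⟩
  by_contra hcon
  push Not at hcon
  have hY2 : 2 ≤ Y := hY0.trans hY
  have hYY : Y ≤ Y ^ 2 := by nlinarith
  have h1 := h Y hY
  set S : Finset ℕ := (Ioc ⌊Y⌋₊ ⌊Y ^ 2⌋₊).filter Nat.Prime with hS
  have hmem : ∀ p ∈ S, p.Prime ∧ (p : ℤ) ∣ m := by
    intro p hp
    rw [hS, mem_filter, mem_Ioc] at hp
    refine ⟨hp.2, hcon p hp.2 ?_ ?_⟩
    · exact (Nat.floor_lt (by linarith)).1 hp.1.1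
    · exact (Nat.le_floor_iff (by positivity)).1 hp.1.2
  have h2 : θ (Y ^ 2) - θ Y = ∑ p ∈ S, Real.log p := by
    rw [Chebyshev.theta, Chebyshev.theta, hS]
    have hdis : (Ioc 0 ⌊Y ^ 2⌋₊).filter Nat.Prime = ((Ioc 0 ⌊Y⌋₊).filter Nat.Prime) ∪
        ((Ioc ⌊Y⌋₊ ⌊Y ^ 2⌋₊).filter Nat.Prime) := by
      rw [← filter_union, Ioc_union_Ioc_eq_Ioc (Nat.zero_le _) (Nat.floor_mono hYY)]
    rw [hdis, sum_union]
    · ring
    · rw [Finset.disjoint_left]
      intro a ha hb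
      rw [mem_filter, mem_Ioc] at ha hb
      omega
  have h3 : ∏ p ∈ S, p ∣ m.natAbs := by
    refine Finset.prod_primes_dvd m.natAbs (fun p hp => (hmem p hp).1.prime) fun p hp => ?_
    exact Int.natCast_dvd.1 (hmem p hp).2
  have h4 : ∏ p ∈ S, p ≤ m.natAbs := Nat.le_of_dvd (Int.natAbs_pos.2 hm) h3
  have h5 : ∏ p ∈ S, (p : ℝ) ≤ |(m : ℝ)| := by
    have h50 : ((∏ p ∈ S, p : ℕ) : ℝ) ≤ ((m.natAbs : ℕ) : ℝ) := by exact_mod_cast h4
    rw [Nat.cast_natAbs] at h50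
    push_cast at h50
    exact h50
  have h6 : ∑ p ∈ S, Real.log p ≤ Real.log |(m : ℝ)| := by
    rw [← Real.log_prod (s := S) (f := fun p => (p : ℝ)) (by
      intro p hp
      exact_mod_cast (hmem p hp).1.ne_zero)]
    refine Real.log_le_log ?_ h5
    refine Finset.prod_pos fun p hp => ?_
    exact_mod_cast (hmem p hp).1.pos
  linarith

end Pool.Agent.H26.TE
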