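import Mathlib

/-!
General lemma for te_modules (MP_7ecdd4_nt): a small integer vector in the kernel of an integer
matrix all of whose maximal minors vanish.
-/

set_option autoImplicit false

namespace Pool.Agent.H26.TE

open Matrix Finset

/-- Leibniz bound for the determinant -/
theorem te_det_le {n : ℕ} (A : Matrix (Fin n) (Fin n) ℤ) (B : ℤ) (hA : ∀ i j, |A i j| ≤ B) :
    |A.det| ≤ (n.factorial : ℤ) * B ^ n := by
  rw [Matrix.det_apply]
  refine (Finset.abs_sum_le_sum_abs _ _).trans ?_
  have h : ∀ σ ∈ (Finset.univ : Finset (Equiv.Perm (Fin n))),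
      |Equiv.Perm.sign σ • ∏ i, A (σ i) i| ≤ B ^ n := by
    intro σ _
    have e : |Equiv.Perm.sign σ • ∏ i, A (σ i) i| = ∏ i, |A (σ i) i| := by
      rw [Units.smul_def, smul_eq_mul, abs_mul, Finset.abs_prod]
      rcases Int.units_eq_one_or (Equiv.Perm.sign σ) with h | h <;> simp [h]
    rw [e]
    refine (Finset.prod_le_prod (fun i _ => abs_nonneg _) fun i _ => hA (σ i) i).trans ?_
    simp
  refine (Finset.sum_le_sum h).trans ?_
  rw [Finset.sum_const, Finset.card_univ, Fintype.card_perm, Fintype.card_fin, nsmul_eq_mul]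

theorem te_krn_aux {ρ : Type} {N r : ℕ} (M : ρ → Fin N → ℤ) (f : Fin r → ρ) (g : Fin r → Fin N)
    (hfg : (Matrix.of fun i j => M (f i) (g j)).det ≠ 0)
    (hno : ∀ (f' : Fin (r + 1) → ρ) (g' : Fin (r + 1) → Fin N),
      (Matrix.of fun i j => M (f' i) (g' j)).det = 0) (j0 : Fin N) (hj0 : ∀ k, g k ≠ j0)
    (B : ℤ) (hB : 1 ≤ B) (hM : ∀ i j, |M i j| ≤ B) (hr : r < N) :
    ∃ G : Fin N → ℤ, G ≠ 0 ∧ (∀ j, |G j| ≤ (N.factorial : ℤ) * B ^ N) ∧
      ∀ i, ∑ j, M i j * G j = 0 := by
  classical
  set g' : Fin (r + 1) → Fin N := Fin.cons j0 g with hg'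
  have hginj : Function.Injective g := by
    intro a b hab
    by_contra hne
    apply hfg
    exact Matrix.det_zero_of_column_eq hne fun i => by simp [hab]
  have hg'inj : Function.Injective g' := by
    rw [hg', Fin.cons_injective_iff]
    refine ⟨?_, hginj⟩
    rintro ⟨k, hk⟩
    exact hj0 k hk
  set c : Fin (r + 1) → ℤ := fun k =>
    (-1) ^ (k : ℕ) * (Matrix.of fun i j => M (f i) (g' (k.succAbove j))).det with hc
  have hcb : ∀ k, |c k| ≤ (r.factorial : ℤ) * B ^ r := by
    intro k
    rw [hc]
    simp only [abs_mul, abs_pow, abs_neg, abs_one, one_pow, one_mul]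
    exact te_det_le _ B fun i j => hM _ _
  set G : Fin N → ℤ := fun j => ∑ k, if g' k = j then c k else 0 with hG
  have hGk : ∀ k, G (g' k) = c k := by
    intro k
    rw [hG]
    simp only
    rw [Finset.sum_eq_single k]
    · simp
    · intro b _ hb
      rw [if_neg]
      intro h
      exact hb (hg'inj h)
    · intro h
      exact absurd (Finset.mem_univ k) h
  refine ⟨G, ?_, ?_, ?_⟩
  · intro h0
    have h1 := hGk 0
    rw [h0] at h1
    apply hfg
    have h2 : c 0 = (Matrix.of fun i j => M (f i) (g j)).det := by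
      rw [hc]
      simp only [Fin.val_zero, pow_zero, one_mul]
      congr 1
    rw [← h2, ← h1]
    rfl
  · intro j
    have hb : (r.factorial : ℤ) * B ^ r ≤ (N.factorial : ℤ) * B ^ N := by
      have h1 : (r.factorial : ℤ) ≤ (N.factorial : ℤ) := by
        exact_mod_cast Nat.factorial_le hr.le
      have h2 : B ^ r ≤ B ^ N := pow_le_pow_right₀ hB hr.le
      have h3 : (0 : ℤ) ≤ B ^ r := by positivity
      have h4 : (0 : ℤ) ≤ (N.factorial : ℤ) := by positivity
      exact mul_le_mul h1 h2 h3 h4
    by_cases hj : ∃ k, g' k = j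
    · obtain ⟨k, rfl⟩ := hj
      rw [hGk]
      exact (hcb k).trans hb
    · have : G j = 0 := by
        rw [hG]
        simp only
        refine Finset.sum_eq_zero fun k _ => ?_
        rw [if_neg]
        intro h
        exact hj ⟨k, h⟩
      rw [this, abs_zero]
      have h0 : (0 : ℤ) ≤ B := by omega
      positivity
  · intro i
    have h1 := hno (Fin.cons i f) g'
    rw [Matrix.det_succ_row_zero] at h1
    have h2 : ∑ j, M i j * G j = ∑ k, M i (g' k) * c k := by
      rw [hG]
      simp only [Finset.mul_sum]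
      rw [Finset.sum_comm]
      refine Finset.sum_congr rfl fun k _ => ?_
      rw [Finset.sum_eq_single (g' k)]
      · simp
      · intro b _ hb
        rw [if_neg (fun h => hb h.symm), mul_zero]
      · intro h
        exact absurd (Finset.mem_univ _) h
    rw [h2, ← h1]
    refine Finset.sum_congr rfl fun k _ => ?_
    rw [hc]
    simp only [Matrix.of_apply, Fin.cons_zero]
    have e : (Matrix.of fun i' j => M (f i') (g' (k.succAbove j))) =
        (Matrix.of fun i' j => M ((Fin.cons i f : Fin (r + 1) → ρ) i') (g' j)).submatrix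
          Fin.succ k.succAbove := by
      ext a b
      simp
    rw [e]
    ring

/-- a small vector in the kernel -/
theorem te_krn {ρ : Type} {N : ℕ} (M : ρ → Fin N → ℤ) (B : ℤ) (hB : 1 ≤ B)
    (hM : ∀ i j, |M i j| ≤ B)
    (hdet : ∀ f : Fin N → ρ, (Matrix.of fun i j => M (f i) j).det = 0) :
    ∃ G : Fin N → ℤ, G ≠ 0 ∧ (∀ j, |G j| ≤ (N.factorial : ℤ) * B ^ N) ∧
      ∀ i, ∑ j, M i j * G j = 0 := by
  classical
  let P : ℕ → Prop := fun r => ∀ (f : Fin r → ρ) (g : Fin r → Fin N),
    (Matrix.of fun i j => M (f i) (g j)).det = 0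
  have hPN : P N := by
    intro f g
    by_cases hg : Function.Injective g
    · have hbij : Function.Bijective g := Finite.injective_iff_bijective.1 hg
      have h1 := Matrix.det_permute' (Equiv.ofBijective g hbij) (Matrix.of fun i j => M (f i) j)
      rw [hdet f, mul_zero] at h1
      rw [← h1]
      rfl
    · rw [Function.not_injective_iff] at hg
      obtain ⟨a, b, hab, hne⟩ := hg
      exact Matrix.det_zero_of_column_eq hne fun i => by simp [hab]
  have hex : ∃ r, P r := ⟨N, hPN⟩
  set m := Nat.find hex with hm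
  have hmP : P m := Nat.find_spec hex
  have hmN : m ≤ N := Nat.find_min' hex hPN
  have hm0 : m ≠ 0 := by
    intro h0
    rw [h0] at hmP
    have := hmP Fin.elim0 Fin.elim0
    simp at this
  obtain ⟨r, hr⟩ := Nat.exists_eq_succ_of_ne_zero hm0
  have hrP : ¬ P r := Nat.find_min hex (by omega)
  have hrP' : ∃ (f : Fin r → ρ) (g : Fin r → Fin N),
      (Matrix.of fun i j => M (f i) (g j)).det ≠ 0 := by
    by_contra hcon
    push Not at hcon
    exact hrP hcon
  obtain ⟨f, g, hfg⟩ := hrP'
  have hrN : r < N := by omega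
  have hex0 : ∃ j0 : Fin N, ∀ k, g k ≠ j0 := by
    by_contra hcon
    push Not at hcon
    have hs : Function.Surjective g := fun j => hcon j
    have := Fintype.card_le_of_surjective g hs
    simp at this
    omega
  obtain ⟨j0, hj0⟩ := hex0
  rw [hr] at hmP
  exact te_krn_aux M f g hfg hmP j0 hj0 B hB hM hrN

end Pool.Agent.H26.TE
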